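import Mathlib
import Pool.Graph.R_seed8.Helper458.Final

set_option autoImplicit false

namespace Pool.Agent.KS6_31.HC

open Classical Pool.Agent.Helper458

universe u

variable {V : Type u}

/-- degree as in the statement -/
noncomputable def dgr (G : SimpleGraph V) (v : V) : ℕ := (G.neighborSet v).ncard

theorem dgr_eq [Fintype V] (G : SimpleGraph V) (v : V) : dgr G v = dg G v := by
  have : G.neighborSet v = ↑(Finset.univ.filter (G.Adj v)) := by
    ext w; simp
  rw [dgr, this, Set.ncard_coe_finset, dg]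

/-- alternate choice -/
def alt {α : Type*} (a b : α) (i : ℕ) : α := if i % 2 = 0 then a else b

theorem alt_even {α : Type*} (a b : α) {i : ℕ} (h : i % 2 = 0) : alt a b i = a := if_pos h

theorem alt_odd {α : Type*} (a b : α) {i : ℕ} (h : i % 2 = 1) : alt a b i = b :=
  if_neg (by omega)

/-- alternating cycle of length `2m` through a prescribed vertex -/
theorem altcycle [Fintype V] {R B : SimpleGraph V} {m : ℕ} (hm : 0 < m)
    (hcard : Fintype.card V = 2 * m) (hR : ∀ v, m ≤ dg R v) (hB : ∀ v, m ≤ dg B v) (x : V) :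
    ∃ z : ℕ → V, Set.InjOn z (Set.Iio (2 * m)) ∧ z 0 = x ∧
      (∀ i, i + 1 < 2 * m → (alt R B i).Adj (z i) (z (i + 1))) ∧ B.Adj (z (2 * m - 1)) (z 0) := by
  obtain ⟨f, c, hinv, hRf, hc⟩ := key_star hm hcard hR hB
  have hstepE : ∀ s : ℤ, s % 2 = 0 → R.Adj (yy f c s) (yy f c (s + 1)) := by
    intro s hs
    obtain ⟨t, rfl⟩ : ∃ t, s = 2 * t := ⟨s / 2, by omega⟩
    rw [yy_even, yy_odd]
    exact hRf _
  have hstepO : ∀ s : ℤ, s % 2 = 1 → B.Adj (yy f c s) (yy f c (s + 1)) := by
    intro s hs
    obtain ⟨t, rfl⟩ : ∃ t, s = 2 * t + 1 := ⟨s / 2, by omega⟩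
    rw [show 2 * t + 1 + 1 = 2 * (t + 1) by ring, yy_even, yy_odd]
    exact hc.arr _
  have hper : ∀ s : ℤ, yy f c (s + 2 * m) = yy f c s := by
    intro s
    rcases Int.even_or_odd' s with ⟨t, rfl | rfl⟩
    · rw [show 2 * t + 2 * (m : ℤ) = 2 * (t + m) by ring, yy_even, yy_even, hc.per]
    · rw [show 2 * t + 1 + 2 * (m : ℤ) = 2 * (t + m) + 1 by ring, yy_odd, yy_odd, hc.per]
  have hinj : ∀ a : ℤ, ∀ s t : ℕ, s < 2 * m → t < 2 * m → yy f c (a + s) = yy f c (a + t) →
      s = t := fun a s t hs ht h => yy_inj hinv hc a hs ht h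
  -- surjectivity
  have hsurj : ∃ s : ℕ, s < 2 * m ∧ yy f c s = x := by
    have h1 : ((Finset.range (2 * m)).image (fun s : ℕ => yy f c s)) = Finset.univ := by
      apply Finset.eq_univ_of_card
      rw [Finset.card_image_of_injOn, Finset.card_range, hcard]
      intro s hs t ht hst
      have hs' : s < 2 * m := by simpa using hs
      have ht' : t < 2 * m := by simpa using ht
      exact hinj 0 s t hs' ht' (by simpa using hst)
    have h2 : x ∈ ((Finset.range (2 * m)).image (fun s : ℕ => yy f c s)) := by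
      rw [h1]; exact Finset.mem_univ x
    obtain ⟨s, hs, hsx⟩ := Finset.mem_image.1 h2
    exact ⟨s, Finset.mem_range.1 hs, hsx⟩
  obtain ⟨s, hs, hsx⟩ := hsurj
  rcases Nat.even_or_odd' s with ⟨t, ht | ht⟩
  · refine ⟨fun i => yy f c ((s : ℤ) + i), ?_, ?_, ?_, ?_⟩
    · intro i hi j hj hij
      exact hinj s i j hi hj hij
    · simpa using hsx
    · intro i hi
      show (alt R B i).Adj (yy f c ((s : ℤ) + i)) (yy f c ((s : ℤ) + ((i + 1 : ℕ) : ℤ)))
      have e : ((s : ℤ) + ((i + 1 : ℕ) : ℤ)) = ((s : ℤ) + i) + 1 := by push_cast; ring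
      rw [e]
      rcases Nat.mod_two_eq_zero_or_one i with h | h
      · rw [alt_even _ _ h]
        exact hstepE _ (by omega)
      · rw [alt_odd _ _ h]
        exact hstepO _ (by omega)
    · show B.Adj (yy f c ((s : ℤ) + ((2 * m - 1 : ℕ) : ℤ))) (yy f c ((s : ℤ) + ((0 : ℕ) : ℤ)))
      have h1 := hstepO ((s : ℤ) + ((2 * m - 1 : ℕ) : ℤ)) (by omega)
      have e : (s : ℤ) + ((2 * m - 1 : ℕ) : ℤ) + 1 = (s : ℤ) + 2 * m := by omega
      rw [e, hper] at h1
      simpa using h1
  · refine ⟨fun i => yy f c ((s : ℤ) - i), ?_, ?_, ?_, ?_⟩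
    · intro i hi j hj hij
      have hi' : i < 2 * m := hi
      have hj' : j < 2 * m := hj
      have h1 := hinj ((s : ℤ) - (2 * m - 1 : ℕ)) (2 * m - 1 - i) (2 * m - 1 - j) (by omega)
        (by omega) (by
          have e1 : (s : ℤ) - (2 * m - 1 : ℕ) + ((2 * m - 1 - i : ℕ) : ℤ) = (s : ℤ) - i := by omega
          have e2 : (s : ℤ) - (2 * m - 1 : ℕ) + ((2 * m - 1 - j : ℕ) : ℤ) = (s : ℤ) - j := by omega
          rw [e1, e2]
          exact hij)
      omega
    · simpa using hsx
    · intro i hi
      show (alt R B i).Adj (yy f c ((s : ℤ) - i)) (yy f c ((s : ℤ) - ((i + 1 : ℕ) : ℤ)))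
      have e : ((s : ℤ) - i) = ((s : ℤ) - ((i + 1 : ℕ) : ℤ)) + 1 := by push_cast; ring
      rw [e]
      rcases Nat.mod_two_eq_zero_or_one i with h | h
      · rw [alt_even _ _ h]
        exact (hstepE _ (by omega)).symm
      · rw [alt_odd _ _ h]
        exact (hstepO _ (by omega)).symm
    · show B.Adj (yy f c ((s : ℤ) - ((2 * m - 1 : ℕ) : ℤ))) (yy f c ((s : ℤ) - ((0 : ℕ) : ℤ)))
      have h1 := hstepO ((s : ℤ) - 2 * m) (by omega)
      have e : (s : ℤ) - 2 * m + 2 * m = s := by ring
      have h2 := hper ((s : ℤ) - 2 * m)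
      rw [e] at h2
      rw [← h2] at h1
      have e3 : (s : ℤ) - ((2 * m - 1 : ℕ) : ℤ) = (s : ℤ) - 2 * m + 1 := by omega
      rw [e3]
      simpa using h1.symm

/-- deleting a vertex lowers degrees by at most one -/
theorem dg_comap_inj {V' : Type u} [Fintype V'] [Fintype V] (ι : V' → V)
    (hι : Function.Injective ι)
    (hc : Fintype.card V = Fintype.card V' + 1) (R : SimpleGraph V) (x : V') :
    dg R (ι x) ≤ dg (R.comap ι) x + 1 := by
  have hsub : Finset.univ.filter (R.Adj (ι x)) ⊆
      ((Finset.univ.filter ((R.comap ι).Adj x)).image ι) ∪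
        (Finset.univ \ (Finset.univ.image ι)) := by
    intro u hu
    rw [Finset.mem_union]
    by_cases h : u ∈ Finset.univ.image ι
    · left
      obtain ⟨y, -, rfl⟩ := Finset.mem_image.1 h
      exact Finset.mem_image.2 ⟨y, by simpa using hu, rfl⟩
    · right
      exact Finset.mem_sdiff.2 ⟨Finset.mem_univ u, h⟩
  have h1 := Finset.card_le_card hsub
  have h2 := Finset.card_union_le ((Finset.univ.filter ((R.comap ι).Adj x)).image ι)
    (Finset.univ \ (Finset.univ.image ι))
  have h3 : (Finset.univ \ (Finset.univ.image ι) : Finset V).card = 1 := by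
    rw [Finset.card_sdiff_of_subset (Finset.subset_univ _), Finset.card_image_of_injective _ hι,
      Finset.card_univ, Finset.card_univ, hc]
    omega
  have h4 : ((Finset.univ.filter ((R.comap ι).Adj x)).image ι).card ≤ dg (R.comap ι) x := by
    unfold dg
    exact Finset.card_image_le
  unfold dg at *
  omega

theorem card_ne [Fintype V] (w : V) : Fintype.card {u : V // u ≠ w} = Fintype.card V - 1 := by
  have := Fintype.card_subtype_compl (fun u : V => u = w)
  simpa using this

/-- odd order: alternating Hamilton paths between any two vertices, `R` first, `B` last -/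
theorem odd_connected [Fintype V] {R B : SimpleGraph V} {m : ℕ}
    (hcard : Fintype.card V = 2 * m + 1) (hR : ∀ v, m + 1 ≤ dg R v) (hB : ∀ v, m + 1 ≤ dg B v)
    {v w : V} (hvw : v ≠ w) :
    ∃ z : ℕ → V, Set.InjOn z (Set.Iio (2 * m + 1)) ∧ z 0 = v ∧ z (2 * m) = w ∧
      ∀ i, i + 1 < 2 * m + 1 → (alt R B i).Adj (z i) (z (i + 1)) := by
  have hm : 0 < m := by
    by_contra h0
    have h0' : m = 0 := by omega
    subst h0'
    have : Fintype.card V ≤ 1 := by omega
    exact hvw (Fintype.card_le_one_iff.1 this v w)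
  set V' := {u : V // u ≠ w} with hV'
  have hcard' : Fintype.card V' = 2 * m := by
    have h1 : Fintype.card V' = Fintype.card V - 1 := card_ne w
    omega
  set ι : V' → V := Subtype.val with hι
  set σ : V' → V := fun x => if x.1 = v then w else x.1 with hσ
  have hιinj : Function.Injective ι := Subtype.val_injective
  have hσinj : Function.Injective σ := by
    intro x y hxy
    simp only [hσ] at hxy
    apply Subtype.ext
    by_cases hx : x.1 = v
    · by_cases hy : y.1 = v
      · rw [hx, hy]
      · rw [if_pos hx, if_neg hy] at hxy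
        exact absurd hxy.symm y.2
    · by_cases hy : y.1 = v
      · rw [if_neg hx, if_pos hy] at hxy
        exact absurd hxy x.2
      · rwa [if_neg hx, if_neg hy] at hxy
  obtain ⟨z, hz1, hz2, hz3, hz4⟩ := altcycle (V := V') (R := R.comap ι) (B := B.comap σ) hm hcard'
    (fun x => by
      have h1 := dg_comap_inj ι hιinj (by omega) R x
      have h2 := hR (ι x)
      omega)
    (fun x => by
      have h1 := dg_comap_inj σ hσinj (by omega) B x
      have h2 := hB (σ x)
      omega) ⟨v, hvw⟩
  have hzne : ∀ i, i < 2 * m → i ≠ 0 → (z i).1 ≠ v := by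
    intro i hi hi0 h
    apply hi0
    apply hz1 (Set.mem_Iio.2 hi) (Set.mem_Iio.2 (by omega : 0 < 2 * m))
    rw [hz2]
    exact Subtype.ext h
  have hσz : ∀ i, i < 2 * m → i ≠ 0 → σ (z i) = (z i).1 := by
    intro i hi hi0
    simp only [hσ]
    rw [if_neg (hzne i hi hi0)]
  refine ⟨fun i => if i < 2 * m then (z i).1 else w, ?_, ?_, ?_, ?_⟩
  · intro i hi j hj hij
    have hi' : i < 2 * m + 1 := hi
    have hj' : j < 2 * m + 1 := hj
    simp only at hij
    by_cases h1 : i < 2 * m
    · by_cases h2 : j < 2 * m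
      · rw [if_pos h1, if_pos h2] at hij
        exact hz1 h1 h2 (Subtype.ext hij)
      · rw [if_pos h1, if_neg h2] at hij
        exact absurd hij (z i).2
    · by_cases h2 : j < 2 * m
      · rw [if_neg h1, if_pos h2] at hij
        exact absurd hij.symm (z j).2
      · omega
  · simp only
    rw [if_pos (by omega), hz2]
  · simp only
    rw [if_neg (by omega)]
  · intro i hi
    simp only
    rw [if_pos (by omega)]
    by_cases h1 : i + 1 < 2 * m
    · rw [if_pos h1]
      have h2 := hz3 i h1
      rcases Nat.mod_two_eq_zero_or_one i with h | h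
      · rw [alt_even _ _ h] at h2 ⊢
        exact h2
      · rw [alt_odd _ _ h] at h2 ⊢
        have h3 : B.Adj (σ (z i)) (σ (z (i + 1))) := h2
        rwa [hσz i (by omega) (by omega), hσz (i + 1) h1 (by omega)] at h3
    · rw [if_neg h1]
      have hi2 : i = 2 * m - 1 := by omega
      rw [alt_odd _ _ (by omega : i % 2 = 1)]
      have h3 : B.Adj (σ (z (2 * m - 1))) (σ (z 0)) := hz4
      rw [hσz (2 * m - 1) (by omega) (by omega), hz2] at h3
      have h4 : σ ⟨v, hvw⟩ = w := by simp [hσ]
      rw [h4] at h3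
      rw [hi2]
      exact h3

/-- even order: alternating Hamilton paths between any two vertices, `R` first and last -/
theorem even_connected [Fintype V] {R B : SimpleGraph V} {m : ℕ}
    (hcard : Fintype.card V = 2 * m) (hR : ∀ v, m + 1 ≤ dg R v) (hB : ∀ v, m + 1 ≤ dg B v)
    {v w : V} (hvw : v ≠ w) :
    ∃ z : ℕ → V, Set.InjOn z (Set.Iio (2 * m)) ∧ z 0 = v ∧ z (2 * m - 1) = w ∧
      ∀ i, i + 1 < 2 * m → (alt R B i).Adj (z i) (z (i + 1)) := by
  have hm : 0 < m := by
    by_contra h0
    have h0' : m = 0 := by omega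
    subst h0'
    have : Fintype.card V ≤ 1 := by omega
    exact hvw (Fintype.card_le_one_iff.1 this v w)
  obtain ⟨k, rfl⟩ : ∃ k, m = k + 1 := ⟨m - 1, by omega⟩
  -- a neighbour of `w` other than `v`
  obtain ⟨y, hy1, hy2⟩ : ∃ y, R.Adj w y ∧ y ≠ v := by
    by_contra hcon
    push Not at hcon
    have h1 : Finset.univ.filter (R.Adj w) ⊆ {v} := by
      intro u hu
      rw [Finset.mem_singleton]
      exact hcon u (by simpa using hu)
    have h2 := Finset.card_le_card h1
    have h3 := hR w
    unfold dg at h3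
    rw [Finset.card_singleton] at h2
    omega
  set V' := {u : V // u ≠ w} with hV'
  have hcard' : Fintype.card V' = 2 * k + 1 := by
    have h1 : Fintype.card V' = Fintype.card V - 1 := card_ne w
    omega
  set ι : V' → V := Subtype.val with hι
  have hιinj : Function.Injective ι := Subtype.val_injective
  have hyw : y ≠ w := fun h => R.loopless.irrefl w (h ▸ hy1)
  obtain ⟨z, hz1, hz2, hz3, hz4⟩ := odd_connected (V := V') (R := R.comap ι) (B := B.comap ι)
    (m := k) hcard'
    (fun x => by
      have h1 := dg_comap_inj ι hιinj (by omega) R x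
      have h2 := hR (ι x)
      omega)
    (fun x => by
      have h1 := dg_comap_inj ι hιinj (by omega) B x
      have h2 := hB (ι x)
      omega) (v := ⟨v, hvw⟩) (w := ⟨y, hyw⟩) (fun h => hy2 (congrArg Subtype.val h).symm)
  refine ⟨fun i => if i < 2 * k + 1 then (z i).1 else w, ?_, ?_, ?_, ?_⟩
  · intro i hi j hj hij
    have hi' : i < 2 * (k + 1) := hi
    have hj' : j < 2 * (k + 1) := hj
    simp only at hij
    by_cases h1 : i < 2 * k + 1
    · by_cases h2 : j < 2 * k + 1
      · rw [if_pos h1, if_pos h2] at hij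
        exact hz1 h1 h2 (Subtype.ext hij)
      · rw [if_pos h1, if_neg h2] at hij
        exact absurd hij (z i).2
    · by_cases h2 : j < 2 * k + 1
      · rw [if_neg h1, if_pos h2] at hij
        exact absurd hij.symm (z j).2
      · omega
  · simp only
    rw [if_pos (by omega), hz2]
  · simp only
    rw [if_neg (by omega)]
  · intro i hi
    simp only
    rw [if_pos (by omega)]
    by_cases h1 : i + 1 < 2 * k + 1
    · rw [if_pos h1]
      have h2 := hz4 i h1
      rcases Nat.mod_two_eq_zero_or_one i with h | h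
      · rw [alt_even _ _ h] at h2 ⊢
        exact h2
      · rw [alt_odd _ _ h] at h2 ⊢
        exact h2
    · rw [if_neg h1]
      have hi2 : i = 2 * k := by omega
      rw [alt_even _ _ (by omega : i % 2 = 0), hi2, hz3]
      exact hy1.symm

end Pool.Agent.KS6_31.HC
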