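import Mathlib
import Pool.Agent.KS6_31.HC.HC1

set_option autoImplicit false

namespace Pool.Agent.KS6_31.HC

open Classical Pool.Agent.Helper458

universe u v

variable {V : Type u} {C : Type v}

/-- properly coloured closed sequence of length `N` -/
def PCC (G : C → SimpleGraph V) (N : ℕ) (z : ℕ → V) (col : ℕ → C) : Prop :=
  Set.InjOn z (Set.Iio N) ∧
    ∀ i < N, (G (col i)).Adj (z i) (z ((i + 1) % N)) ∧ col i ≠ col ((i + 1) % N)

theorem pcc_alt {G : C → SimpleGraph V} {a b : C} (hab : a ≠ b) {m : ℕ} (hm : 0 < m) {z : ℕ → V}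
    (h1 : Set.InjOn z (Set.Iio (2 * m)))
    (h2 : ∀ i, i + 1 < 2 * m → (alt (G a) (G b) i).Adj (z i) (z (i + 1)))
    (h3 : (G b).Adj (z (2 * m - 1)) (z 0)) : PCC G (2 * m) z (alt a b) := by
  refine ⟨h1, fun i hi => ?_⟩
  by_cases hi1 : i + 1 < 2 * m
  · rw [Nat.mod_eq_of_lt hi1]
    have h4 := h2 i hi1
    rcases Nat.mod_two_eq_zero_or_one i with h | h
    · rw [alt_even _ _ h] at h4 ⊢
      rw [alt_odd _ _ (by omega : (i + 1) % 2 = 1)]
      exact ⟨h4, hab⟩
    · rw [alt_odd _ _ h] at h4 ⊢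
      rw [alt_even _ _ (by omega : (i + 1) % 2 = 0)]
      exact ⟨h4, hab.symm⟩
  · have hi2 : i = 2 * m - 1 := by omega
    have e : (i + 1) % (2 * m) = 0 := by
      rw [show i + 1 = 2 * m by omega, Nat.mod_self]
    rw [e, alt_odd _ _ (by omega : i % 2 = 1), alt_even _ _ (by omega : 0 % 2 = 0), hi2]
    exact ⟨h3, hab.symm⟩

theorem alt_ne {a b : C} (hab : a ≠ b) (i : ℕ) : alt a b i ≠ alt a b (i + 1) := by
  rcases Nat.mod_two_eq_zero_or_one i with h | h
  · rw [alt_even _ _ h, alt_odd _ _ (by omega : (i + 1) % 2 = 1)]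
    exact hab
  · rw [alt_odd _ _ h, alt_even _ _ (by omega : (i + 1) % 2 = 0)]
    exact hab.symm

theorem alt_G (G : C → SimpleGraph V) (a b : C) (i : ℕ) : alt (G a) (G b) i = G (alt a b i) := by
  unfold alt
  split_ifs <;> rfl

/-- closing an alternating path by an edge of a further colour -/
theorem pcc_close {G : C → SimpleGraph V} {a b : C} (hab : a ≠ b) {n : ℕ} (hn : 2 ≤ n) {z : ℕ → V}
    (h1 : Set.InjOn z (Set.Iio n))
    (h2 : ∀ i, i + 1 < n → (alt (G a) (G b) i).Adj (z i) (z (i + 1))) {k : C}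
    (h3 : (G k).Adj (z (n - 1)) (z 0)) (hka : k ≠ a) (hkb : n % 2 = 1 → k ≠ b) :
    PCC G n z (fun i => if i = n - 1 then k else alt a b i) := by
  refine ⟨h1, fun i hi => ?_⟩
  by_cases hi1 : i + 1 < n
  · rw [Nat.mod_eq_of_lt hi1]
    simp only
    rw [if_neg (by omega)]
    have h5 := h2 i hi1
    rw [alt_G] at h5
    refine ⟨h5, ?_⟩
    by_cases h4 : i + 1 = n - 1
    · rw [if_pos h4]
      rcases Nat.mod_two_eq_zero_or_one i with h | h
      · rw [alt_even _ _ h]
        exact hka.symm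
      · rw [alt_odd _ _ h]
        exact (hkb (by omega)).symm
    · rw [if_neg h4]
      exact alt_ne hab i
  · have hi2 : i = n - 1 := by omega
    have e : (i + 1) % n = 0 := by
      rw [show i + 1 = n by omega, Nat.mod_self]
    rw [e]
    simp only
    rw [if_pos hi2, if_neg (by omega), alt_even _ _ (by omega : 0 % 2 = 0), hi2]
    exact ⟨h3, hka⟩

/-- Dirac-type: even order, alternating Hamilton cycle starting anywhere -/
theorem even_cycle [Fintype V] {G : C → SimpleGraph V} {a b : C} (hab : a ≠ b) {n : ℕ}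
    (hn : Fintype.card V = n) (hn2 : 2 ≤ n) (he : n % 2 = 0)
    (ha : ∀ v, n ≤ 2 * dgr (G a) v) (hb : ∀ v, n ≤ 2 * dgr (G b) v) (x : V) :
    ∃ z : ℕ → V, z 0 = x ∧ PCC G n z (alt a b) := by
  obtain ⟨m, rfl⟩ : ∃ m, n = 2 * m := ⟨n / 2, by omega⟩
  obtain ⟨z, h1, h2, h3, h4⟩ := altcycle (R := G a) (B := G b) (m := m) (by omega) hn
    (fun v => by have := ha v; rw [dgr_eq] at this; omega)
    (fun v => by have := hb v; rw [dgr_eq] at this; omega) x
  exact ⟨z, h2, pcc_alt hab (by omega) h1 h3 h4⟩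

/-- Ore-type: Hamilton-connectedness -/
theorem connected [Fintype V] {R B : SimpleGraph V} {n : ℕ} (hn : Fintype.card V = n)
    (ha : ∀ v, n + 1 ≤ 2 * dgr R v) (hb : ∀ v, n + 1 ≤ 2 * dgr B v) {v w : V} (hvw : v ≠ w) :
    ∃ z : ℕ → V, Set.InjOn z (Set.Iio n) ∧ z 0 = v ∧ z (n - 1) = w ∧
      ∀ i, i + 1 < n → (alt R B i).Adj (z i) (z (i + 1)) := by
  rcases Nat.even_or_odd' n with ⟨m, rfl | rfl⟩
  · exact even_connected hn (fun v => by have := ha v; rw [dgr_eq] at this; omega)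
      (fun v => by have := hb v; rw [dgr_eq] at this; omega) hvw
  · exact odd_connected hn (fun v => by have := ha v; rw [dgr_eq] at this; omega)
      (fun v => by have := hb v; rw [dgr_eq] at this; omega) hvw

/-- number of neighbours of `w` other than `v` -/
noncomputable def dgo (G : SimpleGraph V) (v w : V) : ℕ := {u : V | G.Adj w u ∧ u ≠ v}.ncard

theorem dgo_eq [Fintype V] (G : SimpleGraph V) (v : V) (x : {u : V // u ≠ v}) :
    dgo G v x.1 = dg (G.comap Subtype.val) x := by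
  have h1 : {u : V | G.Adj x.1 u ∧ u ≠ v} =
      Subtype.val '' (↑(Finset.univ.filter ((G.comap (Subtype.val : {u : V // u ≠ v} → V)).Adj x)) :
        Set {u : V // u ≠ v}) := by
    ext u
    constructor
    · rintro ⟨h1, h2⟩
      exact ⟨⟨u, h2⟩, by simpa using h1, rfl⟩
    · rintro ⟨y, hy, rfl⟩
      exact ⟨by simpa using hy, y.2⟩
  rw [dgo, h1, Set.ncard_image_of_injective _ Subtype.val_injective, Set.ncard_coe_finset, dg]
  congr

/-- odd order: alternating cycle through all vertices but `v` -/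
theorem minus_vertex [Fintype V] {G : C → SimpleGraph V} {a b : C} (hab : a ≠ b) {n : ℕ}
    (hn : Fintype.card V = n) (hn3 : 3 ≤ n) (ho : n % 2 = 1) (v : V)
    (ha : ∀ w, w ≠ v → n ≤ 2 * dgo (G a) v w + 1) (hb : ∀ w, w ≠ v → n ≤ 2 * dgo (G b) v w + 1) :
    ∃ z : ℕ → V, (∀ i, i < n - 1 → z i ≠ v) ∧ PCC G (n - 1) z (alt a b) := by
  obtain ⟨m, rfl⟩ : ∃ m, n = 2 * m + 1 := ⟨n / 2, by omega⟩
  have hcard' : Fintype.card {u : V // u ≠ v} = 2 * m := by
    rw [card_ne, hn]
    omega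
  have hne : Nonempty {u : V // u ≠ v} := by
    rw [← Fintype.card_pos_iff]
    omega
  obtain ⟨x⟩ := hne
  obtain ⟨z, h1, h2, h3, h4⟩ := altcycle (V := {u : V // u ≠ v})
    (R := (G a).comap Subtype.val) (B := (G b).comap Subtype.val) (m := m) (by omega) hcard'
    (fun w => by have := ha w.1 w.2; rw [dgo_eq] at this; omega)
    (fun w => by have := hb w.1 w.2; rw [dgo_eq] at this; omega) x
  refine ⟨fun i => (z i).1, fun i _ => (z i).2, ?_⟩
  have e : 2 * m + 1 - 1 = 2 * m := by omega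
  rw [e]
  refine pcc_alt hab (by omega) ?_ ?_ h4
  · intro i hi j hj hij
    exact h1 hi hj (Subtype.ext hij)
  · intro i hi
    have h5 := h3 i hi
    rcases Nat.mod_two_eq_zero_or_one i with h | h
    · rw [alt_even _ _ h] at h5 ⊢
      exact h5
    · rw [alt_odd _ _ h] at h5 ⊢
      exact h5

/-- PC Hamilton cycle through a prescribed edge -/
theorem through_edge [Fintype V] {G : C → SimpleGraph V} {a b : C} (hab : a ≠ b) {n : ℕ}
    (hn : Fintype.card V = n)
    (ha : ∀ v, n + 1 ≤ 2 * dgr (G a) v) (hb : ∀ v, n + 1 ≤ 2 * dgr (G b) v) {v w : V} {k : C}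
    (hk : (G k).Adj v w) (hka : k ≠ a) (hkb : n % 2 = 1 → k ≠ b) :
    ∃ z : ℕ → V, z 0 = v ∧ z (n - 1) = w ∧
      PCC G n z (fun i => if i = n - 1 then k else alt a b i) := by
  have hvw : v ≠ w := hk.ne
  obtain ⟨z, h1, h2, h3, h4⟩ := connected hn ha hb hvw
  have hn2 : 2 ≤ n := by
    rw [← hn]
    have := Fintype.one_lt_card_iff.2 ⟨v, w, hvw⟩
    omega
  refine ⟨z, h2, h3, pcc_close hab hn2 h1 h4 ?_ hka hkb⟩
  rw [h2, h3]
  exact hk.symm

end Pool.Agent.KS6_31.HC
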