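import Mathlib
import Pool.Agent.KS6_31.HC.HC2

set_option autoImplicit false

namespace Pool.Agent.KS6_31.HC

/-- complete bipartite graph between even and odd numbers -/
def par (n : ℕ) : SimpleGraph (Fin n) where
  Adj i j := (i : ℕ) % 2 ≠ (j : ℕ) % 2
  symm := ⟨fun _ _ h => h.symm⟩
  loopless := ⟨fun _ h => h rfl⟩

theorem par_deg (n : ℕ) (v : Fin n) : n / 2 ≤ ((par n).neighborSet v).ncard := by
  classical
  set f : Fin (n / 2) → Fin n := fun j =>
    if (v : ℕ) % 2 = 0 then ⟨2 * j + 1, by have := j.2; omega⟩ else ⟨2 * j, by have := j.2; omega⟩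
    with hf
  have hinj : Function.Injective f := by
    intro i j hij
    simp only [hf] at hij
    apply Fin.ext
    split_ifs at hij with h
    · have := Fin.mk.inj hij
      omega
    · have := Fin.mk.inj hij
      omega
  have hsub : Set.range f ⊆ (par n).neighborSet v := by
    rintro _ ⟨j, rfl⟩
    show (v : ℕ) % 2 ≠ ((f j : Fin n) : ℕ) % 2
    simp only [hf]
    split_ifs with h
    · simp only
      omega
    · simp only
      omega
  have h1 := Set.ncard_le_ncard hsub (Set.toFinite _)
  have h2 : (Set.range f).ncard = n / 2 := by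
    rw [← Set.image_univ, Set.ncard_image_of_injective _ hinj, Set.ncard_univ, Nat.card_eq_fintype_card,
      Fintype.card_fin]
  omega

theorem par_no (n : ℕ) (hn : 4 ≤ n) (z : ℕ → Fin n) (hz : Set.InjOn z (Set.Iio n))
    (h0 : (z 0 : ℕ) = 1) (h1 : (z (n - 1) : ℕ) = 3)
    (h2 : ∀ i, i + 1 < n → (par n).Adj (z i) (z (i + 1))) : False := by
  classical
  have hpar : ∀ i, i < n → (z i : ℕ) % 2 = (1 + i) % 2 := by
    intro i
    induction i with
    | zero => intro _; rw [h0]
    | succ i ih =>
      intro hi
      have h3 := ih (by omega)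
      have h4 : (z i : ℕ) % 2 ≠ (z (i + 1) : ℕ) % 2 := h2 i hi
      omega
  rcases Nat.even_or_odd' n with ⟨m, hm | hm⟩
  · have h3 := hpar (n - 1) (by omega)
    rw [h1] at h3
    omega
  · have hcard : ((Finset.range (m + 1)).image (fun j => (z (2 * j) : ℕ) / 2)).card = m + 1 := by
      rw [Finset.card_image_of_injOn, Finset.card_range]
      intro i hi j hj hij
      have hi' : i < m + 1 := by simpa using hi
      have hj' : j < m + 1 := by simpa using hj
      simp only at hij
      have e1 := hpar (2 * i) (by omega)
      have e2 := hpar (2 * j) (by omega)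
      have e3 : (z (2 * i) : ℕ) = z (2 * j) := by omega
      have e4 := hz (Set.mem_Iio.2 (by omega : 2 * i < n)) (Set.mem_Iio.2 (by omega : 2 * j < n))
        (Fin.ext e3)
      omega
    have hsub : (Finset.range (m + 1)).image (fun j => (z (2 * j) : ℕ) / 2) ⊆ Finset.range m := by
      intro x hx
      obtain ⟨j, hj, rfl⟩ := Finset.mem_image.1 hx
      have hj' : j < m + 1 := by simpa using hj
      have e1 := hpar (2 * j) (by omega)
      have e2 := (z (2 * j)).2
      rw [Finset.mem_range]
      omega
    have h3 := Finset.card_le_card hsub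
    rw [hcard, Finset.card_range] at h3
    omega

end Pool.Agent.KS6_31.HC
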